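import Pool.Agent.H24.HV.Main1
import Pool.Agent.H24.HV.PsiId

set_option autoImplicit false

/-!
# The zeros of all Dirichlet L-functions do not decide Hooley's conjecture on the variance

Let `f(p)` tend to infinity, as slowly as one wishes. Every prime `p` is moved by at most `f(p)`, injectively, such that
for each `q` the residue modulo `q` changes for finitely many primes only, and for every Dirichlet character the Euler
product over the new primes is the Dirichlet L-function times a factor which is holomorphic and without zeros in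
`Re s > 0`: all zeros and poles with `Re s > 0` are the same. But the variance `G(X,Q)` of the new primes in the reduced
classes modulo `Q` is at least `(1 - ε) X² / φ(Q)` (which is, up to a constant, the largest order of magnitude that the
sieve allows for the primes) for ALL large `X` and all multiples `Q` of certain integers `q ≥ X^(1/2+ε)`, one in every
interval `[y, 3y]`. In particular Hooley's conjecture fails at every large `X`, in all parts of its range, by the factor
`X / (φ(Q) log Q)`, which is as large as `X^(1/2-ε)` for `Q` near `X^(1/2)`.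

Proof. The primes are moved into Bohr sets of `√2` whose width tends to zero (template by helper67). An integer `q` with
`|√2 q - p| ≤ 1 / (2q)` for some `p` prime to `q`, `q ≥ X^(1/2+ε)`, reduces the elements up to `X` of a Bohr set of width
`η` to integers `B < q` for which `B p` modulo `q` is in an interval of length about `η q`, and there are about `η φ(q)`
reduced classes of this kind. So almost all reduced classes modulo `q`, and modulo the multiples of `q`, are missed.
-/

namespace Pool.Agent.Results.MP_5d318d_nt.MovedPrimesMaximal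

open Finset Filter Topology Pool.Agent.H24.HV

/-- `psi φ X Q A` and `G φ X Q` are the sum `ψ(X;Q,A)` and the variance `G(X,Q)` for the moved primes `φ p`; the first
assertion says that for the identity they are those of the primes. Let `f ≥ 0` tend to infinity. There is a map `φ` on
the primes such that
(1) `φ` is injective on the primes, `φ p ≥ 2`, `|φ p - p| ≤ f p` and `|φ p - p| ≤ log p` for all primes `p`, and for
every `q ≥ 1`: `φ p ≡ p` modulo `q` for all but finitely many primes `p`;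
(2) for every Dirichlet character `χ` the Euler product over the `φ p` is `L(s, χ) E(s)` for `Re s > 1`, where `E` is
holomorphic and without zeros in `Re s > 0`;
(3) for `0 < ε ≤ 1/2`, all large `X` and all `y ≥ X^(1/2+ε)` there is an integer `q` with `y ≤ q ≤ 3y` such that
`G φ X Q ≥ (1 - ε) X² / φ(Q)` for ALL multiples `Q` of `q`;
(4) for `0 < ε < 1/2` and all large `X` there is `Q` with `X^(1/2+ε) < Q < X` and
`G φ X Q ≥ X^(1/2-2ε) X log Q`. -/
theorem result :
    (∀ (X : ℝ) (Q : ℕ), G (fun p => p) X Q = ∑ A ∈ (range Q).filter (fun A => Nat.Coprime A Q),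
      ((∑ n ∈ (Icc 1 ⌊X⌋₊).filter (fun n => n % Q = A), ArithmeticFunction.vonMangoldt n) -
        X / (Nat.totient Q : ℝ)) ^ 2) ∧
    ∀ f : ℕ → ℝ, (∀ n, 0 ≤ f n) → Tendsto f atTop atTop → ∃ φ : ℕ → ℕ,
      (Set.InjOn φ {p | p.Prime} ∧
        (∀ p : ℕ, p.Prime → 2 ≤ φ p ∧ |(φ p : ℝ) - p| ≤ f p ∧ |(φ p : ℝ) - p| ≤ Real.log p) ∧
        ∀ q : ℕ, 0 < q → {p : ℕ | p.Prime ∧ ¬ φ p ≡ p [MOD q]}.Finite) ∧
      (∀ (q : ℕ) [NeZero q] (χ : DirichletCharacter ℂ q), ∃ E : ℂ → ℂ,
        DifferentiableOn ℂ E {s : ℂ | 0 < s.re} ∧ (∀ s : ℂ, 0 < s.re → E s ≠ 0) ∧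
        ∀ s : ℂ, 1 < s.re → HasProd (fun p : Nat.Primes => (1 - χ (φ p) * (φ p : ℂ) ^ (-s))⁻¹)
          (χ.LFunction s * E s)) ∧
      (∀ ε : ℝ, 0 < ε → ε ≤ 1 / 2 → ∃ X₀ : ℝ, ∀ X : ℝ, X₀ ≤ X → ∀ y : ℝ, X ^ (1 / 2 + ε) ≤ y →
        ∃ q : ℕ, 1 ≤ q ∧ y ≤ q ∧ (q : ℝ) ≤ 3 * y ∧ ∀ h : ℕ, 1 ≤ h →
          (1 - ε) * (X ^ 2 / Nat.totient (h * q)) ≤ G φ X (h * q)) ∧
      (∀ ε : ℝ, 0 < ε → ε < 1 / 2 → ∃ X₀ : ℝ, ∀ X : ℝ, X₀ ≤ X →
        ∃ Q : ℕ, X ^ (1 / 2 + ε) < Q ∧ (Q : ℝ) < X ∧ X ^ (1 / 2 - 2 * ε) * (X * Real.log Q) ≤ G φ X Q) := by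
  refine ⟨G_id, fun f hf0 hf => ?_⟩
  obtain ⟨φ, Y, _, O⟩ := Pool.Agent.H67.BB.template Pool.Agent.H67.BB.TT Pool.Agent.H67.BB.TT_syn f hf0 hf
    (fun _ _ => 0)
  exact ⟨φ, ⟨O.inj, fun p hp => ⟨O.move.two p hp, O.dispf p hp, O.displog p hp⟩, O.move.fin⟩,
    fun q _ χ => Pool.Agent.H67.BB.euler2 O.move q χ, fun ε h1 h2 => maximal O ε h1 h2,
    fun ε h1 h2 => sup_infinite O ε h1 h2⟩

end Pool.Agent.Results.MP_5d318d_nt.MovedPrimesMaximal
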